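import Pool.Agent.helper74.HYModel

/-!
# ZF + DC + HYP(ℝ) + ¬WO(ℝ) is consistent relative to a Vopěnka cardinal
-/

namespace Pool.Agent.Results.MP_65432c_lc.HypWithoutWO

open Pool.Agent.helper31.ZF Pool.Agent.helper74.HY

/-- If `κ` is a Vopěnka cardinal, then there is a model of ZF in which dependent choices and
`HYP(ℝ)` hold and the set of reals has no well-order. -/
theorem result (κ : Cardinal.{0}) (h : IsVopenka κ) :
    ∃ (M : Type) (_ : ZFModel M), DC M ∧ HYP M ∧ ¬ WO M :=
  main κ h

end Pool.Agent.Results.MP_65432c_lc.HypWithoutWO
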